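import Pool.Agent.TH679.KC.Asym
import Pool.Agent.TH679.KC.Upper

/-!
# Weighted languages of automata with k counters need space n^k

Let `A` be a language over a finite alphabet `Γ`. For weights `w (i, a)` of the letters `a` at the
positions `i` of a word of length `n` the weight of the cheapest word of length `n` in `A` is asked
for (`wordSum`, over the tropical semiring). This is the weighted form of the membership problem.
Programs compute step by step with a few registers, which hold real numbers or infinity, using the
operations `min` and `+` (a pure dynamic program; a step also can load a weight or a constant; the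
order of the steps may depend on `n` in any way).

We consider the languages of real-time automata with `k` counters (for `k = 1` these one-counter
languages include languages which are complete for nondeterministic logarithmic space). The usual
dynamic program, which computes for the configurations one after another the weight of the cheapest
continuation, uses `O(n ^ k)` registers and `O(n ^ (k + 1))` steps. We show that for each `k` this
number of registers is optimal up to a factor `n ^ o(1)` for all programs with a polynomial number
of steps, even for deterministic automata: there is one deterministic real-time automaton with `k`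
counters, such that programs with at most `n ^ (k - ε)` registers have at least `n ^ Ω(log n)` steps,
for each fixed `ε > 0`. The same holds for programs over the nonnegative real numbers with `+` and
`*`, for the sum over all words of length `n` in the language of the products of the weights of
their letters.

The law behind this: if `n ≥ 13 k ^ 3 d ^ 2 q 2 ^ d` then for `K` registers and `L` steps
`(2 ^ (k d)) ^ κ ≤ 2 L ((⌈log₂ L⌉ + 1) K) ^ κ`, where `κ = ⌈log₄ (q + 3)⌉ - 1`.

Proof: The counters, whose values are below `2 ^ d`, contain the last `k d` members of a sequence of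
bits. A new bit is pushed into this window while a text of length about `3 k 2 ^ (d - 1)` is read:
for each counter the text has `2 ^ d` cells, which are even and odd in turns; the counter is
decreased until it is 0, which tells its lowest bit, and then is increased at each second cell, which
gives the half of its (complemented) old value; then the bit which comes from the previous counter is
added as the highest bit. The first letter of the text gives the new bit and the previous one, the
last letter gives the new bit and the bit which leaves the window. If all other letters are forced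
by infinite weights, then the words (of finite weight) are the colorings with two colors of the
vertices `0, 1, 2, ...` of a strip with `k d` rows, where `g` is joined with `g + 1` and with
`g + k d`, and the letters are the pairs of colors at the edges. So the programs compute ground state
energies (partition functions) of 2-spin systems on strips with `2 ^ (k d)` states of a column, from
words of length about `2 ^ d`. For these there is the law of my result
`MP_4e849b_lc.SpinSystemRegisters`.
-/

set_option autoImplicit false

namespace Pool.Agent.Results.MP_6216ea_lc.CounterAutomataRegisters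

open Filter
open Pool.Agent.TH679.CF (wordSum SolvesMin SolvesSum)
open Pool.Agent.TH679.KC
open Pool.Agent.H564R3.PW (Instr exec)
open scoped NNReal

/-- Let `k ≥ 1`.

(1) There is a deterministic real-time automaton `M` with `k` counters (which changes in each step at
most one counter, by at most 1) such that

(a) if a program with the registers `ρ` computes the weight of the cheapest word of length `n` of
the language, for all weights in the natural numbers, or the sum over the words of length `n` of the
language of the products of the weights of their letters, for all nonnegative real weights, and if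
`13 * k ^ 3 * d ^ 2 * q * 2 ^ d ≤ n`, then with `κ = ⌈log₄ (q + 3)⌉ - 1`
`(2 ^ (k * d)) ^ κ ≤ 2 * steps * ((⌈log₂ steps⌉ + 1) * registers) ^ κ`;

(b) for each `ε` there is `c > 0` such that for all large `n` such programs with at most
`n ^ (k - ε)` registers have at least `n ^ (c log₂ n)` steps.

(2) For each (nondeterministic) real-time automaton with `k` counters there is a constant `C` such
that for all `n ≥ 1`, over each commutative semiring with idempotent addition (for instance with
`min` and `+`), and over each commutative semiring if the automaton is deterministic, there is a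
program with at most `C * n ^ k` registers and `C * n ^ (k + 1)` steps which computes the sum over
the words of length `n` of the language (the weight of the cheapest word). -/
theorem result (k : ℕ) (hk : 1 ≤ k) :
    (∃ (Γ Q : Type) (_ : Fintype Γ) (_ : DecidableEq Γ) (_ : Fintype Q) (M : Counters k Γ Q),
      M.Deterministic ∧ M.UnitSteps ∧
      (∀ d q n : ℕ, 1 ≤ d → 1 ≤ q → 13 * k ^ 3 * d ^ 2 * q * 2 ^ d ≤ n →
        ∀ (ρ : Type) [Fintype ρ] [DecidableEq ρ] (o : ρ),
        (∀ p, SolvesMin (Γ := Γ) M.language n p o → 1 ≤ p.length ∧
          (2 ^ (k * d)) ^ (Nat.clog 4 (q + 3) - 1) ≤ 2 * p.length *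
            ((Nat.clog 2 p.length + 1) * Fintype.card ρ) ^ (Nat.clog 4 (q + 3) - 1)) ∧
        (∀ p, SolvesSum (Γ := Γ) M.language n p o → 1 ≤ p.length ∧
          (2 ^ (k * d)) ^ (Nat.clog 4 (q + 3) - 1) ≤ 2 * p.length *
            ((Nat.clog 2 p.length + 1) * Fintype.card ρ) ^ (Nat.clog 4 (q + 3) - 1))) ∧
      (∀ ε : ℝ, 0 < ε → ε ≤ 1 → ∃ c : ℝ, 0 < c ∧ ∀ᶠ n : ℕ in atTop,
        ∀ (ρ : Type) [Fintype ρ] [DecidableEq ρ] (o : ρ),
          (Fintype.card ρ : ℝ) ≤ (n : ℝ) ^ (k - ε) →
          (∀ p, SolvesMin (Γ := Γ) M.language n p o →
            (n : ℝ) ^ (c * Real.logb 2 n) ≤ p.length) ∧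
          (∀ p, SolvesSum (Γ := Γ) M.language n p o →
            (n : ℝ) ^ (c * Real.logb 2 n) ≤ p.length))) ∧
    ∀ (Γ Q : Type) [Fintype Γ] [Finite Q] (M : Counters k Γ Q), ∃ C : ℕ, ∀ n : ℕ, 1 ≤ n →
      ∃ (ρ : Type) (_ : Fintype ρ) (_ : DecidableEq ρ), Fintype.card ρ ≤ C * n ^ k ∧
        ∀ (R : Type) [CommSemiring R], ((∀ a : R, a + a = a) ∨ M.Deterministic) →
          ∃ (p : List (Instr R (Fin n × Γ) ρ)) (o : ρ), p.length ≤ C * n ^ (k + 1) ∧
            ∀ w : Fin n × Γ → R, exec w p o = wordSum (Γ := Γ) M.language n w := by
  obtain ⟨j, rfl⟩ : ∃ j, k = j + 1 := ⟨k - 1, by omega⟩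
  refine ⟨⟨Let, St j, inferInstance, inferInstance, inferInstance, mach j, mach_det j,
    mach_unit j, ?_, ?_⟩, fun Γ Q _ _ M => upper M⟩
  · intro d q n hd hq hn ρ _ _ o
    obtain ⟨e, rfl⟩ : ∃ e, d = e + 1 := ⟨d - 1, by omega⟩
    exact ⟨fun p hp => lawMin hq hn p o hp, fun p hp => lawSum hq hn p o hp⟩
  · intro ε hε hε2
    obtain ⟨δ, hδ⟩ : ∃ δ : ℝ, δ = ε / ((j + 1 : ℕ) : ℝ) := ⟨_, rfl⟩
    have hk0 : (0 : ℝ) < ((j + 1 : ℕ) : ℝ) := by positivity
    have hδ0 : 0 < δ := by rw [hδ]; positivity
    have hδ1 : ((j + 1 : ℕ) : ℝ) * δ = ε := by
      rw [hδ]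
      field_simp
    obtain ⟨ν₀, hν₀⟩ := exists_large (j + 1) ε δ hε hδ0
    refine ⟨((j + 1 : ℕ) : ℝ) * δ ^ 2 / 400, by positivity, ?_⟩
    have hlarge : ∀ᶠ n : ℕ in atTop, (2 : ℝ) ^ ν₀ ≤ (n : ℝ) :=
      tendsto_natCast_atTop_atTop.eventually_ge_atTop _
    filter_upwards [hlarge, eventually_ge_atTop (26 * (j + 1) ^ 3)] with n hn hn8 ρ _ _ o hK
    have hj3 : 1 ≤ (j + 1) ^ 3 := Nat.one_le_pow _ _ (Nat.succ_pos _)
    have hn0 : (0 : ℝ) < n := by
      have : 0 < n := by omega
      exact_mod_cast this
    have hν : ν₀ ≤ Real.logb 2 n := by
      rw [Real.le_logb_iff_rpow_le (by norm_num) hn0]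
      exact hn
    obtain ⟨g1, g4, g2, g3⟩ := hν₀ _ hν
    have hsm : 13 * (j + 1) ^ 3 * (0 + 1) ^ 2 * 1 * 2 ^ (0 + 1) ≤ n := by
      have e : 13 * (j + 1) ^ 3 * (0 + 1) ^ 2 * 1 * 2 ^ (0 + 1) = 26 * (j + 1) ^ 3 := by ring
      rw [e]
      exact hn8
    refine ⟨fun p hp => ?_, fun p hp => ?_⟩
    · refine steps_ge (Nat.succ_le_succ (Nat.zero_le j)) hδ0 (by rw [hδ1]; exact hε2)
        (by rw [hδ1]; exact g1) g4 g2 g3 (by omega) (lawMin (q := 1) le_rfl hsm p o hp).1
        (by rw [hδ1]; exact hK) fun h q hh hq hhq => ?_
      obtain ⟨e, rfl⟩ : ∃ e, h = e + 1 := ⟨h - 1, by omega⟩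
      exact (lawMin hq hhq p o hp).2
    · refine steps_ge (Nat.succ_le_succ (Nat.zero_le j)) hδ0 (by rw [hδ1]; exact hε2)
        (by rw [hδ1]; exact g1) g4 g2 g3 (by omega) (lawSum (q := 1) le_rfl hsm p o hp).1
        (by rw [hδ1]; exact hK) fun h q hh hq hhq => ?_
      obtain ⟨e, rfl⟩ : ∃ e, h = e + 1 := ⟨h - 1, by omega⟩
      exact (lawSum hq hhq p o hp).2

end Pool.Agent.Results.MP_6216ea_lc.CounterAutomataRegisters
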