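import Pool.Agent.Results.MP_9277c3_lc.CheapestWordsWithStack
import Pool.Agent.Results.MP_6216ea_lc.CounterAutomataRegisters

/-!
# A stack does not reduce the space needed for the languages of automata with k counters

`CLOSURE(CFL)` differs from nondeterministic logarithmic space if and only if a stack (pushdown store)
increases the power of nondeterministic machines with logarithmic space and polynomial time.  We
consider the same question for pure dynamic programs.  They compute step by step with `K` registers,
which hold real numbers or infinity, using the operations `min` and `+`; programs with a stack may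
also put the contents of a register on the stack, or remove the top of the stack and put it into a
register, without any bound for the height of the stack.

For weights `w (i, a)` of the letters `a` at the positions `i` of a word of length `n` the weight of
the cheapest word of length `n` in the language of a real-time automaton with `k` counters is asked
for (for `k = 1` these languages include languages which are complete for nondeterministic
logarithmic space).  helper679's `CounterAutomataRegisters` shows that `O(n ^ k)` registers and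
`O(n ^ (k + 1))` steps are enough without a stack, and that without a stack `n ^ (k - ε)` registers
are not enough for a polynomial number of steps.  Here: with a stack, too, programs with at most
`n ^ (k - ε)` registers need `n ^ Ω(log n)` steps.  So for each `k` the exponent of the number of
registers which are needed in polynomial time is exactly `k`, with and without a stack: machines
which are given a stack do not need less space, in the exponent, for these languages.  The same holds
over the nonnegative real numbers with `+` and `*`.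

*Proof.*  Elimination of the stack (`Pool.Agent.TH706.SK.simulate`): `K (⌈log₂ (L + 1)⌉ + 1) ^ 2`
registers and `(48 K + 16) L ^ 3` steps are enough without the stack.
-/

set_option autoImplicit false

namespace Pool.Agent.Results.MP_6216ea_lc.CountersWithStack

open Filter
open Pool.Agent.TH706.SK
open Pool.Agent.TH679.CF
open Pool.Agent.TH679.KC (Counters)
open Pool.Agent.H564R3.PW (Instr exec)
open Pool.Agent.Results.MP_9277c3_lc.CheapestWordsWithStack (StackWordsMin StackWordsSum lt_pow_clog
  card_eq law_mono)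
open scoped NNReal

/-- the transfer of the asymptotic form: `l` steps without a stack -/
theorem asym_transfer {k : ℕ} (hk : 1 ≤ k) {ε c : ℝ} (hε : 0 < ε) (hc : 0 < c) :
    ∀ᶠ n : ℕ in atTop, ∀ K L l K' : ℕ, 1 ≤ K → (K : ℝ) ≤ (n : ℝ) ^ (k - ε) →
      K' = K * (Nat.clog 2 (L + 1) + 1) ^ 2 → l ≤ (48 * K + 16) * L ^ 3 →
      ((K' : ℝ) ≤ (n : ℝ) ^ (k - ε / 2) → (n : ℝ) ^ (c * Real.logb 2 n) ≤ l) →
      (n : ℝ) ^ (c / 8 * Real.logb 2 n) ≤ L := by
  have hk0 : (0 : ℝ) < k := by exact_mod_cast hk
  have hk1 : (1 : ℝ) ≤ k := by exact_mod_cast hk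
  obtain ⟨y₀, hy₀⟩ := transfer (δ := ε / (4 * k)) (c := c / k ^ 2) (by positivity)
    (by positivity)
  have hlarge : ∀ᶠ n : ℕ in atTop, (2 : ℝ) ^ (max y₀ 1) ≤ (n : ℝ) :=
    tendsto_natCast_atTop_atTop.eventually_ge_atTop _
  filter_upwards [hlarge, eventually_ge_atTop 2] with n hn hn2 K L l K' hK1 hK hK' hl hcon
  have hn0 : (0 : ℝ) < n := by
    have : 0 < n := by omega
    exact_mod_cast this
  have hn1 : (1 : ℝ) ≤ n := by
    have : 1 ≤ n := by omega
    exact_mod_cast this
  have hlog : max y₀ 1 ≤ Real.logb 2 n := by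
    rw [Real.le_logb_iff_rpow_le (by norm_num) hn0]
    exact hn
  by_contra hlt
  push Not at hlt
  have hN : Real.logb 2 ((n : ℝ) ^ k) = k * Real.logb 2 n := by
    rw [Real.logb_pow]
  have hpow : ∀ x : ℝ, ((n : ℝ) ^ k) ^ x = (n : ℝ) ^ (k * x) := by
    intro x
    rw [← Real.rpow_natCast, ← Real.rpow_mul hn0.le]
  obtain ⟨g1, g2⟩ := hy₀ ((n : ℝ) ^ k) (by positivity) (by
    rw [hN]
    have h1 := (le_max_left y₀ 1).trans hlog
    have h2 := (le_max_right y₀ 1).trans hlog
    nlinarith) K L hK1 (by
      refine hK.trans ?_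
      rw [← Real.rpow_natCast]
      exact Real.rpow_le_rpow_of_exponent_le hn1 (by linarith)) (by
      refine hlt.trans_le (le_of_eq ?_)
      rw [hpow, hN]
      congr 1
      field_simp)
  rw [hpow] at g1
  rw [hpow, hN] at g2
  have h3 : (K' : ℝ) ≤ (n : ℝ) ^ (k - ε / 2) := by
    rw [hK']
    push_cast
    push_cast at g1
    have e1 : (k : ℝ) * (ε / (4 * k)) = ε / 4 := by field_simp
    rw [e1] at g1
    calc (K : ℝ) * ((Nat.clog 2 (L + 1) : ℝ) + 1) ^ 2
        ≤ (n : ℝ) ^ (k - ε) * (n : ℝ) ^ (ε / 4) := by gcongr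
      _ = (n : ℝ) ^ (k - ε + ε / 4) := by rw [← Real.rpow_add hn0]
      _ ≤ (n : ℝ) ^ (k - ε / 2) := Real.rpow_le_rpow_of_exponent_le hn1 (by linarith)
  have h4 := hcon h3
  have h5 : (l : ℝ) ≤ (((48 * K + 16) * L ^ 3 : ℕ) : ℝ) := by exact_mod_cast hl
  have h6 : (k : ℝ) * (c / k ^ 2 * (k * Real.logb 2 (n : ℝ))) =
      c * Real.logb 2 n := by field_simp
  rw [h6] at g2
  linarith

/-- For each `k ≥ 1` there is a deterministic real-time automaton `M` with `k` counters (which changes
in each step at most one counter, by at most 1) such that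

(1) if a program with the registers `ρ`, a stack and `L` steps computes the weight of the cheapest
word of length `n` of the language, for all weights in the natural numbers, or the sum over the words
of length `n` of the language of the products of the weights of their letters, for all nonnegative
real weights, and if `13 * k ^ 3 * d ^ 2 * q * 2 ^ d ≤ n`, then with `κ = ⌈log₄ (q + 3)⌉ - 1`,
`L' = (48 K + 16) L ^ 3` and `K' = K (⌈log₂ (L + 1)⌉ + 1) ^ 2`, `K` being the number of registers,
`(2 ^ (k * d)) ^ κ ≤ 2 L' ((⌈log₂ L'⌉ + 1) K') ^ κ`;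

(2) for each `ε` there is `c > 0` such that for all large `n` such programs with at most
`n ^ (k - ε)` registers and a stack have at least `n ^ (c log₂ n)` steps. -/
theorem result (k : ℕ) (hk : 1 ≤ k) :
    ∃ (Γ Q : Type) (_ : Fintype Γ) (_ : DecidableEq Γ) (_ : Fintype Q) (M : Counters k Γ Q),
      M.Deterministic ∧ M.UnitSteps ∧
      (∀ d q n : ℕ, 1 ≤ d → 1 ≤ q → 13 * k ^ 3 * d ^ 2 * q * 2 ^ d ≤ n →
        ∀ (ρ : Type) [Fintype ρ] [DecidableEq ρ] (o : ρ) (L L' K' : ℕ),
        L' = (48 * Fintype.card ρ + 16) * L ^ 3 →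
        K' = Fintype.card ρ * (Nat.clog 2 (L + 1) + 1) ^ 2 →
        ((∃ p, StackWordsMin (Γ := Γ) M.language n p o ∧ p.length = L) ∨
          ∃ p, StackWordsSum (Γ := Γ) M.language n p o ∧ p.length = L) →
          (2 ^ (k * d)) ^ (Nat.clog 4 (q + 3) - 1) ≤
            2 * L' * ((Nat.clog 2 L' + 1) * K') ^ (Nat.clog 4 (q + 3) - 1)) ∧
      (∀ ε : ℝ, 0 < ε → ε ≤ 1 → ∃ c : ℝ, 0 < c ∧ ∀ᶠ n : ℕ in atTop,
        ∀ (ρ : Type) [Fintype ρ] [DecidableEq ρ] (o : ρ),
          (Fintype.card ρ : ℝ) ≤ (n : ℝ) ^ (k - ε) →
          (∀ p, StackWordsMin (Γ := Γ) M.language n p o →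
            (n : ℝ) ^ (c * Real.logb 2 n) ≤ p.length) ∧
          (∀ p, StackWordsSum (Γ := Γ) M.language n p o →
            (n : ℝ) ^ (c * Real.logb 2 n) ≤ p.length)) := by
  obtain ⟨⟨Γ, Q, i1, i2, i3, M, hdet, hunit, hlaw, hasym⟩, -⟩ :=
    Pool.Agent.Results.MP_6216ea_lc.CounterAutomataRegisters.result k hk
  refine ⟨Γ, Q, i1, i2, i3, M, hdet, hunit, ?_, ?_⟩
  · intro d q n hd hq hn ρ _ _ o L L' K' hL' hK' hp
    rcases hp with ⟨p, hp, rfl⟩ | ⟨p, hp, rfl⟩
    · obtain ⟨r, h1, z, h2⟩ := simulate p _ (lt_pow_clog p.length)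
      have h3 := ((hlaw d q n hd hq hn _ (o, z)).1 r (fun w => by rw [h2]; exact hp w)).2
      rw [card_eq, ← hK'] at h3
      rw [← hL'] at h1
      exact law_mono h3 h1
    · obtain ⟨r, h1, z, h2⟩ := simulate p _ (lt_pow_clog p.length)
      have h3 := ((hlaw d q n hd hq hn _ (o, z)).2 r (fun w => by rw [h2]; exact hp w)).2
      rw [card_eq, ← hK'] at h3
      rw [← hL'] at h1
      exact law_mono h3 h1
  · intro ε hε hε1
    obtain ⟨c, hc, hev⟩ := hasym (ε / 2) (by positivity) (by linarith)
    refine ⟨c / 8, by positivity, ?_⟩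
    filter_upwards [hev, asym_transfer hk hε hc] with n h1 h2 ρ _ _ o hK
    have hK1 : 1 ≤ Fintype.card ρ := Fintype.card_pos_iff.2 ⟨o⟩
    refine ⟨fun p hp => ?_, fun p hp => ?_⟩
    · obtain ⟨r, h3, z, h4⟩ := simulate p _ (lt_pow_clog p.length)
      refine h2 _ p.length r.length _ hK1 hK rfl h3 fun hK' => ?_
      refine (h1 _ (o, z) ?_).1 r (fun w => by rw [h4]; exact hp w)
      rw [card_eq]
      exact hK'
    · obtain ⟨r, h3, z, h4⟩ := simulate p _ (lt_pow_clog p.length)
      refine h2 _ p.length r.length _ hK1 hK rfl h3 fun hK' => ?_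
      refine (h1 _ (o, z) ?_).2 r (fun w => by rw [h4]; exact hp w)
      rw [card_eq]
      exact hK'

end Pool.Agent.Results.MP_6216ea_lc.CountersWithStack
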