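import Pool.Agent.TH706.TW.Asym

/-!
# A pushdown store is worth exactly a factor log N (pure dynamic programs)

The log-space closure of the context-free languages is `NL` iff a pushdown store gives no extra
power to nondeterministic log-space machines that run in polynomial time. The deterministic
polynomial time machines with a pushdown store are simulated in polynomial time with a factor
`log n` more space without it (Cook). We determine what a pushdown store is worth for pure dynamic
programs: straight-line programs over `(min, +)`, or over the nonnegative real numbers with `+` and
`*`, with `K` registers which hold elements of the semiring (loads of input weights and constants,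
the two operations), with or without a stack for elements of the semiring.

For such programs the stack can be eliminated with a factor `O(log L)` more registers and
polynomially many steps, `L` being the number of steps. We show that this factor is necessary,
for every number of registers between a constant and `N ^ (1 / 4)`: for the cheapest derivations
(labellings) over the complete binary tree of height `h` with `k` letters, `N` weights, and programs
with polynomially many steps, `Θ(k)` registers are necessary and sufficient with a stack, and
`Θ(k log N)` without it.

Proof of the lower bound. Each monomial of the output is traced back through the program; at each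
time it is distributed over some registers. A node of the tree is open if the rule of the node and
the rule above it are in different registers (or only one of them is loaded already). All monomials
of a register which are used have the same open nodes with the same letters there (otherwise one
could exchange them and get a wrong monomial). The number of the leaves which have been loaded
grows by steps of one, so it is `1 + 4 + ... + 4 ^ (g - 1)` at some time, `g = ⌊h / 2⌋`; it is also a sum
of signed powers of two, one for each open node (and one for the root), so there are `g` open nodes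
at this time. A time and a set of at most `g` registers determine the letters of `g` open nodes;
this gives `k ^ g ≤ (L + 1) * (the number of sets of at most g registers)`.
-/

set_option autoImplicit false

namespace Pool.Agent.Results.MP_6216ea_lc.StackWorthLogFactor

open Finset
open Pool.Agent.H564R3.PW (Instr exec)
open Pool.Agent.TH679.PD
open Pool.Agent.TH679.TR
open Pool.Agent.TH706.SK
open Pool.Agent.TH706.TW
open scoped NNReal

/-- (1) The law, without a stack. Let `g ≤ h / 2`. If a program with `K` registers and `L` steps
computes the minimum weight of a labelling of the complete binary tree of height `h` with `k` letters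
which has the letter `u` at the root, for all weights in the natural numbers (or the sum over these
labellings of the products of the weights, for all nonnegative real weights), then
`k ^ g ≤ (L + 1) * ∑ i ≤ g, (K choose i)`.

(2) Over each commutative semiring `(h + 2) * k + 1` registers and `15 N` steps suffice without a
stack, and `2 * k + 2` registers and `9 N` steps suffice with a stack; `N` is the number of the
weights, `N = (2 ^ h - 1) * k ^ 3 + 2 ^ h * k`.

(3) Let `c ≥ 1` and `2 ^ (100 * c) ≤ k ≤ 2 ^ h`. Programs with at most `N ^ c` steps have at least
`k * ⌊log₂ N⌋ / 2 ^ (100 * c)` registers without a stack, and at least `k / 2 ^ (100 * c)` registers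
with a stack.

(4) Elimination of the stack, for all problems: for each program with `K` registers, a stack and `L`
steps, over any commutative semiring, there is a program without a stack that computes the same
values, with `5 * (⌊log₂ L⌋ + 2) * K` registers and at most `98 * L ^ 4` steps. -/
theorem result :
    (∀ (h g k : ℕ), 2 * g ≤ h → ∀ (ρ : Type) [Fintype ρ] [DecidableEq ρ] (u : Fin k) (o : ρ),
      (∀ p, SolvesMin (G := binTree h) (broot h) u p o →
        k ^ g ≤ (p.length + 1) * ∑ i ∈ range (g + 1), (Fintype.card ρ).choose i) ∧
      (∀ p, SolvesSum (G := binTree h) (broot h) u p o →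
        k ^ g ≤ (p.length + 1) * ∑ i ∈ range (g + 1), (Fintype.card ρ).choose i)) ∧
    (∀ (R : Type) [CommSemiring R] (h k N : ℕ), 1 ≤ h → 1 ≤ k →
      N = Fintype.card (Rule (binTree h) k) →
      N = (2 ^ h - 1) * k ^ 3 + 2 ^ h * k ∧
      (∃ (ρ : Type) (_ : Fintype ρ) (_ : DecidableEq ρ)
        (p : List (Instr R (Rule (binTree h) k) ρ)) (o : Fin k → ρ),
        Fintype.card ρ = (h + 2) * k + 1 ∧ p.length ≤ 15 * N ∧
        ∀ (w : Rule (binTree h) k → R) (u : Fin k), exec w p (o u) = deriv w (broot h) u) ∧
      (∃ (ρ : Type) (_ : Fintype ρ) (_ : DecidableEq ρ)
        (p : List (SInstr R (Rule (binTree h) k) ρ)) (o : Fin k → ρ),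
        Fintype.card ρ = 2 * k + 2 ∧ p.length ≤ 9 * N ∧
        ∀ (w : Rule (binTree h) k → R) (u : Fin k), sexec w p (o u) = deriv w (broot h) u)) ∧
    (∀ c h k N : ℕ, 1 ≤ c → 2 ^ (100 * c) ≤ k → k ≤ 2 ^ h →
      N = Fintype.card (Rule (binTree h) k) →
      ∀ (ρ : Type) [Fintype ρ] [DecidableEq ρ] (u : Fin k) (o : ρ),
        (∀ p, p.length ≤ N ^ c → SolvesMin (G := binTree h) (broot h) u p o →
          k * Nat.log 2 N ≤ 2 ^ (100 * c) * Fintype.card ρ) ∧
        (∀ p, p.length ≤ N ^ c → SolvesSum (G := binTree h) (broot h) u p o →
          k * Nat.log 2 N ≤ 2 ^ (100 * c) * Fintype.card ρ) ∧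
        (∀ p, p.length ≤ N ^ c → StackSolvesMin (G := binTree h) (broot h) u p o →
          k ≤ 2 ^ (100 * c) * Fintype.card ρ) ∧
        (∀ p, p.length ≤ N ^ c → StackSolvesSum (G := binTree h) (broot h) u p o →
          k ≤ 2 ^ (100 * c) * Fintype.card ρ)) ∧
    (∀ (R X ρ : Type) [CommSemiring R] [Fintype ρ] [DecidableEq ρ] (p : List (SInstr R X ρ)),
      ∃ (ρ' : Type) (_ : Fintype ρ') (_ : DecidableEq ρ') (q : List (Instr R X ρ')) (z : ρ → ρ'),
        Fintype.card ρ' = 5 * (Nat.log 2 p.length + 2) * Fintype.card ρ ∧
        q.length ≤ 98 * p.length ^ 4 ∧
        ∀ (w : X → R) (i : ρ), exec w q (z i) = sexec w p i) := by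
  refine ⟨?_, ?_, ?_, ?_⟩
  · intro h g k hg ρ _ _ u o
    exact ⟨fun p hp => bin_law hg (good_min hp), fun p hp => bin_law hg (good_sum hp)⟩
  · intro R _ h k N hh hk hN
    subst hN
    refine ⟨card_rule h k, upper_bin R h k hk hh, ?_⟩
    obtain ⟨p, h1, h2⟩ := upper_stack R h k
    exact ⟨SReg k, inferInstance, inferInstance, p, rA, card_SReg k, h1, h2⟩
  · intro c h k N hc hk hkh hN ρ _ _ u o
    have hN' := hN.trans (card_rule h k)
    refine ⟨fun p hL hp => ?_, fun p hL hp => ?_, fun p hL hp => ?_, fun p hL hp => ?_⟩
    · exact num_one hc hk hkh hN' hL fun g hg => bin_law hg (good_min hp)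
    · exact num_one hc hk hkh hN' hL fun g hg => bin_law hg (good_sum hp)
    · exact stack_lower_min hc hk hkh hN hL hp
    · exact stack_lower_sum hc hk hkh hN hL hp
  · intro R X ρ _ _ _ p
    exact eliminate p

end Pool.Agent.Results.MP_6216ea_lc.StackWorthLogFactor
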