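import Pool.Agent.TH762.WD.RCf

/-!
# The log-space closure of CFL is contained in NL iff NL can name wrong counts for chains of
context-free languages

`IsCF L`: some grammar in Chomsky normal form generates the nonempty words of `L`. `LF` is the
smallest class of functions of a word and unary numbers which contains the zero function, the
successor, the projections, `(x + 1) * (y + 1)`, the length of the word and its symbols, and is
closed under composition and limited recursion; `Pd LF` are its predicates (deterministic
logarithmic space). `NR (Pd LF)` are the predicates that are given by paths in graphs on the numbers
up to a polynomial whose edges are given by a predicate in `Pd LF` (nondeterministic logarithmic
space). `RCF L`: the language `L` is reducible to a context-free language by a map of words whose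
length and symbols are functions in `LF`; this is the closure of CFL under reductions in logarithmic
space.

Let `X 0 ⊇ X 1 ⊇ ... ⊇ X (k - 1)` be context-free languages. The number of those languages which
contain the word `w` is one of the `k + 1` numbers `0, ..., k`. Theorem: the closure of CFL under
reductions in logarithmic space is contained in NL if and only if for some constant `k` for each such
chain of context-free languages one of the `k + 1` numbers can be excluded in NL, that is, there is a
function `g` with values `0, ..., k` in NL such that `g w` is never the number of the languages of
the chain that contain `w`.

Proof of the converse: let the places be the triples of a nonterminal and the ends of a subword. For
`k` places and numbers `c 0 < ... < c k` the languages `X s`: the code of the bits of the `k` places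
is at least `c (s + 1)`, form a chain, and as the words of the languages we take the lists of the `k`
subwords, with separators; as the conditions are monotone in the bits, these are finitely many chains
of context-free languages, one for each choice of the nonterminals and of the monotone conditions. So
a wrong count excludes one of the codes `c 0, ..., c k`. Hence there is a list of at most `k`
candidates for the bits of any `k` places. By `MC.world` for some `d < k` there are `k - d - 1` places
such that their true bits together with the bit of one further place survive the extensions by `d`
places in exactly one way. By bounded quantifiers one guesses the bits at those `k - d - 1` places,
and checks with the recursion of Cocke, Younger and Kasami whether the bits which they give are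
right. NL is closed under bounded quantifiers and negation (Immerman, Szelepcsényi; proved in
`WD.IS`), and under the substitution of words that are computed in L (`WD.Subst`).
-/

set_option autoImplicit false

namespace Pool.Agent.Results.MP_6216ea_lc.WrongCounts

open Pool.Agent.TH762.WD

/-- Every language that is reducible to a context-free language in logarithmic space is in NL iff for
some `k` NL can name a wrong count for every chain of `k` context-free languages. -/
theorem result :
    (∀ (m : ℕ) (L : List (Fin m) → Prop), RCF L →
      (fun (w : List (Fin m)) (_ : Fin 0 → ℕ) => L w) ∈ NR (Pd (LF (W := List (Fin m)))) 0) ↔
    ∃ k : ℕ, Wrong (fun m n => NR (Pd (LF (W := List (Fin m)))) n) k :=
  law_rcf fam_NL

end Pool.Agent.Results.MP_6216ea_lc.WrongCounts
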